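import Pool.Agent.TH6.CR.QMain

set_option autoImplicit false
set_option linter.style.haveILetI false
set_option linter.unusedSectionVars false
set_option linter.unusedVariables false

/-! The version over the integral group ring with an orientation character, for the operator norm
of the boundary operator of the cone. -/

namespace TH6.CR

open Matrix TH57.Thr TH6.LF TH6.PF TH6.CX

variable {G : Type} [Group G] {w : G →* ℤˣ} {ι : Type} [Fintype ι] [DecidableEq ι]

theorem q_norm {H : Matrix ι ι (MonoidAlgebra ℤ G) → Matrix ι ι (MonoidAlgebra ℤ G)}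
    (hH : Halver w H) {deg : ι → ℕ} {n : ℕ} {d : Matrix ι ι (MonoidAlgebra ℤ G)}
    {ψ : ℕ → Matrix ι ι (MonoidAlgebra ℤ G)} (h : IsQuadratic w deg n d ψ)
    (s₀ : Matrix (ι ⊕ ι) (ι ⊕ ι) (MonoidAlgebra ℤ G))
    (hs₀ : IsCt (coneDeg deg n) (cone w deg n d ψ) s₀)
    (c : ℝ) (hc0 : 0 < c) (hc : c ^ 2 < 9 / 2) (hthin : NormLE (cone w deg n d ψ) c) :
    ∃ (ρ : ι → ι ⊕ ι) (u : ι → G) (C : ι ⊕ ι → Subgroup G)
      (ψ' χ : ℕ → Matrix ι ι (MonoidAlgebra ℤ G))
      (s : Matrix (ι ⊕ ι) (ι ⊕ ι) (MonoidAlgebra ℤ G)),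
      (∀ b, IsVC (C b)) ∧
      InBlocks ρ C (cu (dmU ℤ u) d) ∧ (∀ k, InBlocks ρ C (ψ' k)) ∧
      IsQuadratic w deg n (cu (dmU ℤ u) d) ψ' ∧
      IsCt (coneDeg deg n) (cone w deg n (cu (dmU ℤ u) d) ψ') s ∧ InBlocks (Sum.elim ρ ρ) C s ∧
      (∀ k i j, χ k i j ≠ 0 → deg i + deg j + k = n + 1) ∧
      ∀ k, cq w (dmU ℤ u) (ψ k) = ψ' k + qbd w deg n (cu (dmU ℤ u) d) χ k := by
  set K := cone w deg n d ψ with hK
  have hKb : IsBd (coneDeg deg n) K := cone_boundary h
  have key : ∀ p q g, (K p q).coeff g ≠ 0 ∨ (K q p).coeff g⁻¹ ≠ 0 →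
      ((K + adj K) p q).coeff g ≠ 0 := by
    intro p q g hne
    rw [coeff_add_adj]
    by_cases h1 : K p q = 0
    · rcases hne with h2 | h2
      · exact absurd (by rw [h1]; rfl) h2
      · rw [h1]
        simpa using h2
    · have h3 : K q p = 0 := by
        by_contra h3
        have h4 := hKb.degree p q h1
        have h5 := hKb.degree q p h3
        omega
      rcases hne with h2 | h2
      · rw [h3]
        simpa using h2
      · exact absurd (by rw [h3]; rfl) h2
  have key' : ∀ p q g, ((K + adj K) p q).coeff g ≠ 0 →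
      (K p q).coeff g ≠ 0 ∨ (K q p).coeff g⁻¹ ≠ 0 := by
    intro p q g hne
    by_contra hcon
    rw [not_or, not_not, not_not] at hcon
    apply hne
    rw [coeff_add_adj, hcon.1, hcon.2, add_zero]
  apply q_main hH h s₀ hs₀ (K + adj K) (sym_add_adj K) ?_ ?_ c hc0 hc
    (norm_sym K hKb.sq c hc0 hthin)
  · intro i j g hne
    exact key _ _ _ (cone_swap h i j g (key' _ _ _ hne))
  · intro i j g hne
    exact key _ _ _ (Or.inl hne)

end TH6.CR
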