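import Pool.Agent.TH6.CR.Quad

set_option autoImplicit false
set_option linter.style.haveILetI false
set_option linter.unusedSectionVars false
set_option linter.unusedVariables false

/-! Quadratic Poincaré complexes over `RG` with thin cones are sums of complexes over virtually
cyclic subgroups. -/

namespace TH6.CR

open Matrix TH57.Thr TH6.LF TH6.PF TH6.CX

variable {R : Type} [Ring R] {G : Type} [Group G]
  {ι : Type} [Fintype ι] [DecidableEq ι]

theorem coeff_zs (z : ℤ) (x : MonoidAlgebra R G) (g : G) :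
    (z • x).coeff g = z • x.coeff g := by
  rw [MonoidAlgebra.coeff_smul, Finsupp.smul_apply]

theorem coeff_ad (x y : MonoidAlgebra R G) (g : G) :
    (x + y).coeff g = x.coeff g + y.coeff g := by
  rw [MonoidAlgebra.coeff_add, Finsupp.add_apply]

theorem zs_ne (k : ℕ) {M : Type} [AddCommGroup M] (m : M) : (-1 : ℤ) ^ k • m = 0 ↔ m = 0 := by
  constructor
  · intro h
    have := congrArg (fun x => (-1 : ℤ) ^ k • x) h
    simpa only [smul_smul, neg_one_sq, one_smul, smul_zero] using this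
  · rintro rfl; exact smul_zero _

section cs

/-- diagonal matrices with entries `± g` -/
noncomputable def dsu (ε : ι → ℤˣ) (u : ι → G) : (Matrix ι ι (MonoidAlgebra R G))ˣ where
  val := Matrix.diagonal fun i => MonoidAlgebra.single (u i) (((ε i : ℤˣ) : ℤ) : R)
  inv := Matrix.diagonal fun i => MonoidAlgebra.single (u i)⁻¹ (((ε i : ℤˣ) : ℤ) : R)
  val_inv := by
    rw [Matrix.diagonal_mul_diagonal]
    ext1 i j
    rw [Matrix.diagonal_apply, Matrix.one_apply]
    have h : (((ε i : ℤˣ) : ℤ) : R) * (((ε i : ℤˣ) : ℤ) : R) = 1 := by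
      rw [← Int.cast_mul, ← Units.val_mul, Int.units_mul_self]; simp
    split_ifs
    · rw [MonoidAlgebra.single_mul_single, h, mul_inv_cancel]; rfl
    · rfl
  inv_val := by
    rw [Matrix.diagonal_mul_diagonal]
    ext1 i j
    rw [Matrix.diagonal_apply, Matrix.one_apply]
    have h : (((ε i : ℤˣ) : ℤ) : R) * (((ε i : ℤˣ) : ℤ) : R) = 1 := by
      rw [← Int.cast_mul, ← Units.val_mul, Int.units_mul_self]; simp
    split_ifs
    · rw [MonoidAlgebra.single_mul_single, h, inv_mul_cancel]; rfl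
    · rfl

/-- conjugation by a unit -/
noncomputable def cu (D : (Matrix ι ι (MonoidAlgebra R G))ˣ) (M : Matrix ι ι (MonoidAlgebra R G)) :
    Matrix ι ι (MonoidAlgebra R G) := D.val * M * D⁻¹.val

theorem cu_mul (D : (Matrix ι ι (MonoidAlgebra R G))ˣ) (M N : Matrix ι ι (MonoidAlgebra R G)) :
    cu D (M * N) = cu D M * cu D N := by
  unfold cu
  calc D.val * (M * N) * D⁻¹.val = D.val * M * 1 * N * D⁻¹.val := by
        rw [Matrix.mul_one]; simp only [Matrix.mul_assoc]
    _ = _ := by rw [← Units.inv_mul D]; simp only [Matrix.mul_assoc]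

theorem cu_add (D : (Matrix ι ι (MonoidAlgebra R G))ˣ) (M N : Matrix ι ι (MonoidAlgebra R G)) :
    cu D (M + N) = cu D M + cu D N := by
  unfold cu
  rw [Matrix.mul_add, Matrix.add_mul]

theorem cu_zero (D : (Matrix ι ι (MonoidAlgebra R G))ˣ) : cu D 0 = 0 := by
  unfold cu
  rw [Matrix.mul_zero, Matrix.zero_mul]

theorem cu_one (D : (Matrix ι ι (MonoidAlgebra R G))ˣ) : cu D 1 = 1 := by
  unfold cu
  rw [Matrix.mul_one, Units.mul_inv]

theorem coeff_cu (ε : ι → ℤˣ) (u : ι → G) (M : Matrix ι ι (MonoidAlgebra R G)) (i j : ι) (g : G) :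
    (cu (dsu ε u) M i j).coeff g
      = (((ε i : ℤˣ) : ℤ) * ((ε j : ℤˣ) : ℤ)) • (M i j).coeff ((u i)⁻¹ * g * u j) := by
  change ((Matrix.diagonal (fun i => MonoidAlgebra.single (u i) (((ε i : ℤˣ) : ℤ) : R)) * M
    * Matrix.diagonal (fun i => MonoidAlgebra.single (u i)⁻¹ (((ε i : ℤˣ) : ℤ) : R)) :
      Matrix ι ι (MonoidAlgebra R G)) i j).coeff g = _
  have hc : ∀ (a b : ℤ) (x : R), (a : R) * x * (b : R) = (a * b) • x := by
    intro a b x
    rw [mul_smul, zsmul_eq_mul, zsmul_eq_mul, mul_assoc]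
    congr 1
    exact (Int.cast_commute b x).symm.eq
  rw [Matrix.mul_diagonal, Matrix.diagonal_mul, MonoidAlgebra.coeff_mul_single_apply,
    MonoidAlgebra.coeff_single_mul_apply, inv_inv, ← mul_assoc (u i)⁻¹, hc]

theorem cu_ne (ε : ι → ℤˣ) (u : ι → G) (M : Matrix ι ι (MonoidAlgebra R G)) (i j : ι)
    (h : cu (dsu ε u) M i j ≠ 0) : M i j ≠ 0 := by
  intro h0
  apply h
  ext g
  rw [coeff_cu, h0]
  simp

theorem bd_cu (ε : ι → ℤˣ) (u : ι → G) {p : ι → ℤ} {d : Matrix ι ι (MonoidAlgebra R G)}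
    (hd : IsBd p d) : IsBd p (cu (dsu ε u) d) :=
  ⟨fun i j h => hd.degree i j (cu_ne ε u d i j h), by rw [← cu_mul, hd.sq, cu_zero]⟩

theorem ct_cu (ε : ι → ℤˣ) (u : ι → G) {p : ι → ℤ} {d s : Matrix ι ι (MonoidAlgebra R G)}
    (hs : IsCt p d s) : IsCt p (cu (dsu ε u) d) (cu (dsu ε u) s) :=
  ⟨fun i j h => hs.degree i j (cu_ne ε u s i j h), by
    rw [← cu_mul, ← cu_mul, ← cu_add, hs.eq, cu_one]⟩

theorem dsu_one (u : ι → G) : dsu (R := R) 1 u = dmU R u := by
  apply Units.ext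
  change (Matrix.diagonal fun i => MonoidAlgebra.single (u i) (((1 : ℤˣ) : ℤ) : R))
    = Matrix.diagonal fun i => MonoidAlgebra.single (u i) 1
  simp

/-- integer multiples of the entries -/
noncomputable def sgm (z : ι → ι → ℤ) (M : Matrix ι ι (MonoidAlgebra R G)) :
    Matrix ι ι (MonoidAlgebra R G) := fun i j => z i j • M i j

theorem coeff_sgm (z : ι → ι → ℤ) (M : Matrix ι ι (MonoidAlgebra R G)) (i j : ι) (g : G) :
    (sgm z M i j).coeff g = z i j • (M i j).coeff g := coeff_zs _ _ _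

end cs

section cq

variable [StarRing R] (w : G →* ℤˣ)

/-- change of basis for elements of `C ⊗ C` -/
noncomputable def cq (D : (Matrix ι ι (MonoidAlgebra R G))ˣ)
    (M : Matrix ι ι (MonoidAlgebra R G)) : Matrix ι ι (MonoidAlgebra R G) :=
  sadj w D⁻¹.val * M * D⁻¹.val

theorem cq_add (D : (Matrix ι ι (MonoidAlgebra R G))ˣ) (M N : Matrix ι ι (MonoidAlgebra R G)) :
    cq w D (M + N) = cq w D M + cq w D N := by
  unfold cq
  rw [Matrix.mul_add, Matrix.add_mul]

theorem cq_zsmul (D : (Matrix ι ι (MonoidAlgebra R G))ˣ) (z : ℤ)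
    (M : Matrix ι ι (MonoidAlgebra R G)) : cq w D (z • M) = z • cq w D M := by
  unfold cq
  rw [Matrix.mul_smul, Matrix.smul_mul]

theorem cq_zero (D : (Matrix ι ι (MonoidAlgebra R G))ˣ) : cq w D 0 = 0 := by
  unfold cq
  rw [Matrix.mul_zero, Matrix.zero_mul]

theorem sadj_cq (D : (Matrix ι ι (MonoidAlgebra R G))ˣ) (M : Matrix ι ι (MonoidAlgebra R G)) :
    sadj w (cq w D M) = cq w D (sadj w M) := by
  unfold cq
  rw [sadj_mul, sadj_mul, sadj_sadj, Matrix.mul_assoc]

theorem cq_mul (D : (Matrix ι ι (MonoidAlgebra R G))ˣ) (M d : Matrix ι ι (MonoidAlgebra R G)) :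
    cq w D M * cu D d = cq w D (M * d) := by
  unfold cq cu
  calc sadj w D⁻¹.val * M * D⁻¹.val * (D.val * d * D⁻¹.val)
      = sadj w D⁻¹.val * M * (D⁻¹.val * D.val) * d * D⁻¹.val := by simp only [Matrix.mul_assoc]
    _ = _ := by rw [Units.inv_mul, Matrix.mul_one]; simp only [Matrix.mul_assoc]

theorem cu_cq (D : (Matrix ι ι (MonoidAlgebra R G))ˣ) (M d : Matrix ι ι (MonoidAlgebra R G)) :
    sadj w (cu D d) * cq w D M = cq w D (sadj w d * M) := by
  have e : sadj w D.val * sadj w D⁻¹.val = 1 := by rw [← sadj_mul, Units.inv_mul, sadj_one]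
  unfold cq cu
  rw [sadj_mul, sadj_mul]
  calc sadj w D⁻¹.val * (sadj w d * sadj w D.val) * (sadj w D⁻¹.val * M * D⁻¹.val)
      = sadj w D⁻¹.val * sadj w d * (sadj w D.val * sadj w D⁻¹.val) * M * D⁻¹.val := by
        simp only [Matrix.mul_assoc]
    _ = _ := by
        rw [e, Matrix.mul_one]; simp only [Matrix.mul_assoc]

theorem coeff_cq (u : ι → G) (M : Matrix ι ι (MonoidAlgebra R G)) (i j : ι) (g : G) :
    (cq w (dmU R u) M i j).coeff g
      = ((w (u i) : ℤˣ) : ℤ) • (M i j).coeff ((u i)⁻¹ * g * u j) := by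
  have h1 : sadj w (dmU R u)⁻¹.val
      = Matrix.diagonal (fun i => MonoidAlgebra.single (u i) (((w (u i) : ℤˣ) : ℤ) : R)) := by
    ext1 i j
    rw [sadj_apply]
    change sbar w (Matrix.diagonal (fun i => MonoidAlgebra.single (u i)⁻¹ (1 : R)) j i) = _
    rw [Matrix.diagonal_apply, Matrix.diagonal_apply]
    by_cases h : j = i
    · subst h
      rw [if_pos rfl, if_pos rfl, sbar_single, inv_inv, w_inv, star_one, zsmul_eq_mul, mul_one]
    · rw [if_neg h, if_neg (Ne.symm h), sbar_zero]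
  unfold cq
  rw [h1]
  change ((Matrix.diagonal (fun i => MonoidAlgebra.single (u i) (((w (u i) : ℤˣ) : ℤ) : R)) * M
    * Matrix.diagonal (fun i => MonoidAlgebra.single (u i)⁻¹ (1 : R)) :
      Matrix ι ι (MonoidAlgebra R G)) i j).coeff g = _
  rw [Matrix.mul_diagonal, Matrix.diagonal_mul, MonoidAlgebra.coeff_mul_single_apply,
    MonoidAlgebra.coeff_single_mul_apply, inv_inv, mul_assoc (u i)⁻¹, mul_one, zsmul_eq_mul]

theorem cq_ne (u : ι → G) (M : Matrix ι ι (MonoidAlgebra R G)) (i j : ι)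
    (h : cq w (dmU R u) M i j ≠ 0) : M i j ≠ 0 := by
  intro h0
  apply h
  ext g
  rw [coeff_cq, h0]
  simp

/-- signs commute with the change of basis -/
theorem cq_sgn (u : ι → G) (z : ι → ι → ℤ) (M : Matrix ι ι (MonoidAlgebra R G)) :
    cq w (dmU R u) (sgm z M) = sgm z (cq w (dmU R u) M) := by
  ext i j g
  rw [coeff_cq, coeff_sgm, coeff_sgm, coeff_cq, smul_comm]

variable (deg : ι → ℕ)

theorem tw_eq (M : Matrix ι ι (MonoidAlgebra R G)) :
    tw w deg M = sgm (fun i j => (-1 : ℤ) ^ (deg i * deg j)) (sadj w M) := rfl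

theorem bdy_eq (d M : Matrix ι ι (MonoidAlgebra R G)) :
    bdy w deg d M = M * d + sgm (fun _ j => (-1 : ℤ) ^ deg j) (sadj w d * M) := rfl

theorem tw_cq (u : ι → G) (M : Matrix ι ι (MonoidAlgebra R G)) :
    tw w deg (cq w (dmU R u) M) = cq w (dmU R u) (tw w deg M) := by
  rw [tw_eq, tw_eq, sadj_cq, cq_sgn]

theorem bdy_cq (u : ι → G) (d M : Matrix ι ι (MonoidAlgebra R G)) :
    bdy w deg (cu (dmU R u) d) (cq w (dmU R u) M) = cq w (dmU R u) (bdy w deg d M) := by
  rw [bdy_eq, bdy_eq, cq_mul, cu_cq, cq_add, cq_sgn]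

variable {deg w}

theorem quadratic_cq (u : ι → G) {n : ℕ} {d : Matrix ι ι (MonoidAlgebra R G)}
    {ψ : ℕ → Matrix ι ι (MonoidAlgebra R G)} (h : IsQuadratic w deg n d ψ) :
    IsQuadratic w deg n (cu (dmU R u) d) (fun s => cq w (dmU R u) (ψ s)) := by
  refine ⟨by rw [← dsu_one]; exact bd_cu 1 u h.boundary,
    fun s i j hne => h.degree s i j (cq_ne w u _ i j hne), ?_⟩
  intro s
  have h1 := congrArg (cq w (dmU R u)) (h.rel s)
  rw [cq_add, cq_zsmul, cq_add, cq_zsmul, ← bdy_cq, ← tw_cq, cq_zero] at h1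
  exact h1

end cq

section tct

variable {β : Type} [DecidableEq β] (ρ : ι → β) (C : β → Subgroup G)

theorem coeff_trc (H : Subgroup G) (x : MonoidAlgebra R G) (g : G) [Decidable (g ∈ H)] :
    (trc H x).coeff g = if g ∈ H then x.coeff g else 0 := by
  change (MonoidAlgebra.mapDomain H.subtype
      (MonoidAlgebra.comapDomain H.subtype H.subtype_injective x)).coeff g = _
  rw [MonoidAlgebra.coeff_mapDomain, MonoidAlgebra.coeff_comapDomain]
  split_ifs with h
  · have := Finsupp.mapDomain_apply H.subtype_injective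
      (x.coeff.comapDomain H.subtype H.subtype_injective.injOn) ⟨g, h⟩
    simpa using this
  · apply Finsupp.mapDomain_of_notMem_range
    simpa using h

theorem coeff_tct [∀ b, DecidablePred (· ∈ C b)] (M : Matrix ι ι (MonoidAlgebra R G))
    (i j : ι) (g : G) : (tct ρ C M i j).coeff g
      = if ρ i = ρ j ∧ g ∈ C (ρ i) then (M i j).coeff g else 0 := by
  rw [tct_apply]
  by_cases h : ρ i = ρ j
  · rw [if_pos h, coeff_trc]
    simp [h]
  · rw [if_neg h, if_neg (fun h' => h h'.1)]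
    rfl

theorem tct_inBlocks (M : Matrix ι ι (MonoidAlgebra R G)) : InBlocks ρ C (tct ρ C M) :=
  fun i j g h => tct_supp ρ C M i j g h

theorem tct_of_inBlocks (M : Matrix ι ι (MonoidAlgebra R G)) (h : InBlocks ρ C M) :
    tct ρ C M = M := by
  classical
  ext i j g
  rw [coeff_tct]
  split_ifs with h1
  · rfl
  · by_contra h2
    exact h1 (h i j g (Ne.symm h2))

theorem tct_sgn (z : ι → ι → ℤ) (M : Matrix ι ι (MonoidAlgebra R G)) :
    tct ρ C (sgm z M) = sgm z (tct ρ C M) := by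
  classical
  ext i j g
  rw [coeff_sgm, coeff_tct, coeff_tct]
  split_ifs
  · exact coeff_sgm _ _ _ _ _
  · simp

theorem tct_zsmul (z : ℤ) (M : Matrix ι ι (MonoidAlgebra R G)) :
    tct ρ C (z • M) = z • tct ρ C M := tct_sgn ρ C (fun _ _ => z) M

theorem tct_neg (M : Matrix ι ι (MonoidAlgebra R G)) : tct ρ C (-M) = -tct ρ C M := by
  have := tct_zsmul ρ C (-1) M
  simpa using this

theorem tct_sub (M N : Matrix ι ι (MonoidAlgebra R G)) :
    tct ρ C (M - N) = tct ρ C M - tct ρ C N := by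
  rw [sub_eq_add_neg, tct_add, tct_neg, ← sub_eq_add_neg]

theorem tct_zero : tct ρ C (0 : Matrix ι ι (MonoidAlgebra R G)) = 0 := by
  have := tct_zsmul ρ C 0 (0 : Matrix ι ι (MonoidAlgebra R G))
  simpa using this

theorem tct_tct (M : Matrix ι ι (MonoidAlgebra R G)) : tct ρ C (tct ρ C M) = tct ρ C M :=
  tct_of_inBlocks ρ C _ (tct_inBlocks ρ C M)

theorem tct_ne (M : Matrix ι ι (MonoidAlgebra R G)) (i j : ι) (h : tct ρ C M i j ≠ 0) :
    M i j ≠ 0 := by
  intro h0
  apply h
  rw [tct_apply, h0, trc_zero, ite_self]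

variable [StarRing R] (w : G →* ℤˣ)

theorem sadj_ne {M : Matrix ι ι (MonoidAlgebra R G)} {i j : ι} {g : G}
    (h : (sadj w M i j).coeff g ≠ 0) : (M j i).coeff g⁻¹ ≠ 0 := by
  rw [sadj_apply, coeff_sbar] at h
  intro h0
  apply h
  rw [h0, star_zero, smul_zero]

theorem inBlocks_adj {M : Matrix ι ι (MonoidAlgebra R G)} (h : InBlocks ρ C M) :
    InBlocks ρ C (sadj w M) := by
  intro i j g hne
  obtain ⟨h1, h2⟩ := h j i _ (sadj_ne w hne)
  refine ⟨h1.symm, ?_⟩
  rw [← h1]
  have := inv_mem h2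
  rwa [inv_inv] at this

theorem tct_adj (M : Matrix ι ι (MonoidAlgebra R G)) :
    tct ρ C (sadj w M) = sadj w (tct ρ C M) := by
  classical
  ext i j g
  rw [sadj_apply, coeff_sbar, coeff_tct, coeff_tct, sadj_apply, coeff_sbar]
  by_cases h : ρ i = ρ j
  · by_cases h2 : g ∈ C (ρ i)
    · rw [if_pos ⟨h, h2⟩, if_pos ⟨h.symm, by rw [← h]; exact inv_mem h2⟩]
    · rw [if_neg (fun h' => h2 h'.2), if_neg, star_zero, smul_zero]
      rintro ⟨_, h3⟩
      apply h2
      rw [h]
      have := inv_mem h3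
      rwa [inv_inv] at this
  · rw [if_neg (fun h' => h h'.1), if_neg (fun h' => h h'.1.symm), star_zero, smul_zero]

theorem tct_tw (deg : ι → ℕ) (M : Matrix ι ι (MonoidAlgebra R G)) :
    tct ρ C (tw w deg M) = tw w deg (tct ρ C M) := by
  rw [tw_eq, tw_eq, tct_sgn, tct_adj]

theorem tct_bdy (deg : ι → ℕ) (d M : Matrix ι ι (MonoidAlgebra R G)) (hd : InBlocks ρ C d) :
    tct ρ C (bdy w deg d M) = bdy w deg d (tct ρ C M) := by
  rw [bdy_eq, bdy_eq, tct_add, (tct_mul ρ C d M hd).2, tct_sgn,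
    (tct_mul ρ C (sadj w d) M (inBlocks_adj ρ C w hd)).1]

variable {w}

theorem quadratic_tct {deg : ι → ℕ} {n : ℕ} {d : Matrix ι ι (MonoidAlgebra R G)}
    {ψ : ℕ → Matrix ι ι (MonoidAlgebra R G)} (h : IsQuadratic w deg n d ψ) (hd : InBlocks ρ C d) :
    IsQuadratic w deg n d (fun s => tct ρ C (ψ s)) := by
  refine ⟨h.boundary, fun s i j hne => h.degree s i j (tct_ne ρ C _ i j hne), ?_⟩
  intro s
  have h1 := congrArg (tct ρ C) (h.rel s)
  rw [tct_add, tct_zsmul, tct_add, tct_zsmul, tct_bdy ρ C w deg d _ hd, tct_tw, tct_zero] at h1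
  exact h1

theorem quadratic_sub {deg : ι → ℕ} {n : ℕ} {d : Matrix ι ι (MonoidAlgebra R G)}
    {ψ φ : ℕ → Matrix ι ι (MonoidAlgebra R G)} (h : IsQuadratic w deg n d ψ)
    (h' : IsQuadratic w deg n d φ) : IsQuadratic w deg n d (fun s => ψ s - φ s) := by
  refine ⟨h.boundary, fun s i j hne => ?_, fun s => ?_⟩
  · rw [Matrix.sub_apply] at hne
    by_cases h1 : ψ s i j = 0
    · apply h'.degree s i j
      intro h2
      apply hne
      rw [h1, h2, sub_zero]
    · exact h.degree s i j h1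
  · have h1 := h.rel s
    have h2 := h'.rel s
    rw [bdy_sub, tw_sub]
    have h3 : bdy w deg d (ψ s) - bdy w deg d (φ s) + (-1 : ℤ) ^ (n + s + 1) •
        (ψ (s + 1) - φ (s + 1)
          + (-1 : ℤ) ^ (s + 1) • (tw w deg (ψ (s + 1)) - tw w deg (φ (s + 1))))
        = (bdy w deg d (ψ s) + (-1 : ℤ) ^ (n + s + 1) •
          (ψ (s + 1) + (-1 : ℤ) ^ (s + 1) • tw w deg (ψ (s + 1))))
        - (bdy w deg d (φ s) + (-1 : ℤ) ^ (n + s + 1) •
          (φ (s + 1) + (-1 : ℤ) ^ (s + 1) • tw w deg (φ (s + 1)))) := by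
      simp only [smul_sub, smul_add]
      abel
    rw [h3, h1, h2, sub_zero]

end tct

section half

variable [StarRing R] (w : G →* ℤˣ)

/-- An operator which halves (anti)symmetric matrices without diagonal part. -/
structure Halver (H : Matrix ι ι (MonoidAlgebra R G) → Matrix ι ι (MonoidAlgebra R G)) : Prop where
  coe : ∀ M i j g, (M i j).coeff g = 0 → (H M i j).coeff g = 0
  spec : ∀ (deg : ι → ℕ) (k : ℕ) (y : Matrix ι ι (MonoidAlgebra R G)),
    y + (-1 : ℤ) ^ k • tw w deg y = 0 → (∀ i, (y i i).coeff 1 = 0) →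
      y = H y + (-1 : ℤ) ^ (k + 1) • tw w deg (H y)

/-- one half of a matrix -/
noncomputable def half (M : Matrix ι ι (MonoidAlgebra R G)) : Matrix ι ι (MonoidAlgebra R G) := by
  classical
  exact fun i j =>
    .ofCoeff ((M i j).coeff.filter (fun g => WellOrderingRel (i, j, g) (j, i, g⁻¹)))

open Classical in
theorem coeff_half (M : Matrix ι ι (MonoidAlgebra R G)) (i j : ι) (g : G) :
    (half M i j).coeff g
      = if WellOrderingRel (i, j, g) (j, i, g⁻¹) then (M i j).coeff g else 0 := by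
  unfold half
  simp only [Finsupp.filter_apply]

theorem coeff_tw (deg : ι → ℕ) (y : Matrix ι ι (MonoidAlgebra R G)) (i j : ι) (g : G) :
    (tw w deg y i j).coeff g = (-1 : ℤ) ^ (deg i * deg j) •
      (((w g : ℤˣ) : ℤ) • star ((y j i).coeff g⁻¹)) := by
  change ((-1 : ℤ) ^ (deg i * deg j) • sbar w (y j i)).coeff g = _
  rw [coeff_zs, coeff_sbar]

theorem half_halver (hno : ∀ g : G, g = g⁻¹ → g = 1) : Halver (ι := ι) (R := R) w half := by
  classical
  refine ⟨fun M i j g h => by rw [coeff_half, h, ite_self], fun deg k y h1 h2 => ?_⟩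
  ext i j g
  have h3 : (y i j).coeff g + (-1 : ℤ) ^ k • ((-1 : ℤ) ^ (deg i * deg j) •
      (((w g : ℤˣ) : ℤ) • star ((y j i).coeff g⁻¹))) = 0 := by
    have h4 := congrArg (fun M : Matrix ι ι (MonoidAlgebra R G) => (M i j).coeff g) h1
    simp only [Matrix.add_apply, Matrix.smul_apply, Matrix.zero_apply] at h4
    rw [coeff_ad, coeff_zs, coeff_tw] at h4
    exact h4
  rw [Matrix.add_apply, coeff_ad, Matrix.smul_apply, coeff_zs, coeff_tw, coeff_half, coeff_half,
    inv_inv]
  rcases trichotomous_of WellOrderingRel (i, j, g) (j, i, g⁻¹) with h | h | h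
  · have h' : ¬ WellOrderingRel (j, i, g⁻¹) (i, j, g) :=
      fun h'' => asymm_of WellOrderingRel h h''
    rw [if_pos h, if_neg h', star_zero, smul_zero, smul_zero, smul_zero, add_zero]
  · simp only [Prod.mk.injEq] at h
    obtain ⟨rfl, _, h4⟩ := h
    have h5 := hno g h4
    subst h5
    rw [inv_one, h2]
    simp
  · have h' : ¬ WellOrderingRel (i, j, g) (j, i, g⁻¹) :=
      fun h'' => asymm_of WellOrderingRel h h''
    rw [if_neg h', if_pos h, zero_add, pow_succ, mul_smul, neg_one_smul, smul_neg]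
    exact eq_neg_of_add_eq_zero_left h3

/-- left multiplication by a scalar -/
noncomputable def lsc (a : R) (M : Matrix ι ι (MonoidAlgebra R G)) :
    Matrix ι ι (MonoidAlgebra R G) := fun i j => MonoidAlgebra.single 1 a * M i j

theorem coeff_lsc (a : R) (M : Matrix ι ι (MonoidAlgebra R G)) (i j : ι) (g : G) :
    (lsc a M i j).coeff g = a * (M i j).coeff g := by
  change (MonoidAlgebra.single 1 a * M i j).coeff g = _
  rw [MonoidAlgebra.coeff_single_mul_apply, inv_one, one_mul]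

/-- multiplication by a half -/
theorem two_halver (a : R) (ha : 2 * a = 1) : Halver (ι := ι) (R := R) w (lsc a) := by
  have h2 : a * 2 = 1 := by
    rw [← ha, two_mul, mul_two]
  have hc : ∀ x : R, a * x = x * a := by
    intro x
    have h3 : x * 2 = 2 * x := by rw [mul_two, two_mul]
    calc a * x = a * x * (2 * a) := by rw [ha, mul_one]
      _ = a * (x * 2) * a := by simp only [mul_assoc]
      _ = a * (2 * x) * a := by rw [h3]
      _ = (a * 2) * x * a := by simp only [mul_assoc]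
      _ = x * a := by rw [h2, one_mul]
  have hs : star a = a := by
    have h3 := congrArg star ha
    rw [star_mul, star_one, star_ofNat] at h3
    calc star a = star a * (2 * a) := by rw [ha, mul_one]
      _ = a := by rw [← mul_assoc, h3, one_mul]
  refine ⟨fun M i j g h => ?_, fun deg k y h1 _ => ?_⟩
  · rw [coeff_lsc, h, mul_zero]
  · ext i j g
    have h3 : (y i j).coeff g + (-1 : ℤ) ^ k • ((-1 : ℤ) ^ (deg i * deg j) •
        (((w g : ℤˣ) : ℤ) • star ((y j i).coeff g⁻¹))) = 0 := by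
      have h4 := congrArg (fun M : Matrix ι ι (MonoidAlgebra R G) => (M i j).coeff g) h1
      simp only [Matrix.add_apply, Matrix.smul_apply, Matrix.zero_apply] at h4
      rw [coeff_ad, coeff_zs, coeff_tw] at h4
      exact h4
    rw [Matrix.add_apply, coeff_ad, Matrix.smul_apply, coeff_zs, coeff_tw, coeff_lsc, coeff_lsc,
      star_mul, hs, ← hc]
    have h5 : (-1 : ℤ) ^ (k + 1) • ((-1 : ℤ) ^ (deg i * deg j) •
        (((w g : ℤˣ) : ℤ) • (a * star ((y j i).coeff g⁻¹)))) = a * (y i j).coeff g := by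
      rw [← mul_smul_comm, ← mul_smul_comm, ← mul_smul_comm, pow_succ, mul_smul, neg_one_smul,
        smul_neg, ← eq_neg_of_add_eq_zero_left h3]
    rw [h5, ← two_mul, ← mul_assoc, ha, one_mul]

variable {w}

theorem Halver.ne {H : Matrix ι ι (MonoidAlgebra R G) → Matrix ι ι (MonoidAlgebra R G)}
    (hH : Halver w H) (M : Matrix ι ι (MonoidAlgebra R G)) (i j : ι) (h : H M i j ≠ 0) :
    M i j ≠ 0 := by
  intro h0
  apply h
  ext g
  rw [hH.coe M i j g (by rw [h0]; rfl)]
  rfl

theorem Halver.tct {H : Matrix ι ι (MonoidAlgebra R G) → Matrix ι ι (MonoidAlgebra R G)}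
    (hH : Halver w H) {β : Type} [DecidableEq β] (ρ : ι → β) (C : β → Subgroup G)
    (y : Matrix ι ι (MonoidAlgebra R G)) (h : TH6.CX.tct ρ C y = 0) :
    TH6.CX.tct ρ C (H y) = 0 := by
  classical
  ext i j g
  have h1 : (TH6.CX.tct ρ C y i j).coeff g = 0 := by rw [h]; rfl
  rw [coeff_tct] at h1 ⊢
  split_ifs with h2
  · rw [if_pos h2] at h1
    exact hH.coe y i j g h1
  · rfl

variable (w)

/-- the null-homotopy -/
noncomputable def chi (H : Matrix ι ι (MonoidAlgebra R G) → Matrix ι ι (MonoidAlgebra R G))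
    (deg : ι → ℕ) (n : ℕ) (d : Matrix ι ι (MonoidAlgebra R G))
    (δ : ℕ → Matrix ι ι (MonoidAlgebra R G)) : ℕ → Matrix ι ι (MonoidAlgebra R G)
  | 0 => 0
  | s + 1 => (-1 : ℤ) ^ (n + s) • H (δ s - bdy w deg d (chi H deg n d δ s))

variable {w}

theorem chi_degree {H : Matrix ι ι (MonoidAlgebra R G) → Matrix ι ι (MonoidAlgebra R G)}
    (hH : Halver w H) (deg : ι → ℕ) (n : ℕ) (d : Matrix ι ι (MonoidAlgebra R G))
    (hd : IsBd (fun i => (deg i : ℤ)) d)
    (δ : ℕ → Matrix ι ι (MonoidAlgebra R G)) (hδ : ∀ s i j, δ s i j ≠ 0 → deg i + deg j + s = n)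
    (s : ℕ) : ∀ i j, chi w H deg n d δ s i j ≠ 0 → deg i + deg j + s = n + 1 := by
  induction s with
  | zero => intro i j h; exact absurd rfl h
  | succ s ih =>
    intro i j h
    have h1 : H (δ s - bdy w deg d (chi w H deg n d δ s)) i j ≠ 0 := by
      intro h0
      apply h
      change (-1 : ℤ) ^ (n + s) • H (δ s - bdy w deg d (chi w H deg n d δ s)) i j = 0
      rw [h0, smul_zero]
    have h2 := hH.ne _ i j h1
    rw [Matrix.sub_apply] at h2
    by_cases h3 : δ s i j = 0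
    · rw [h3, zero_sub] at h2
      have h4 : bdy w deg d (chi w H deg n d δ s) i j ≠ 0 := fun h0 => h2 (by rw [h0, neg_zero])
      change (chi w H deg n d δ s * d) i j
        + (-1 : ℤ) ^ deg j • (sadj w d * chi w H deg n d δ s) i j ≠ 0 at h4
      by_cases h5 : (chi w H deg n d δ s * d) i j = 0
      · rw [h5, zero_add] at h4
        have h6 : (sadj w d * chi w H deg n d δ s) i j ≠ 0 :=
          fun h0 => h4 (by rw [h0, smul_zero])
        rw [Matrix.mul_apply] at h6
        obtain ⟨k, _, hk⟩ := Finset.exists_ne_zero_of_sum_ne_zero h6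
        have h7 : chi w H deg n d δ s k j ≠ 0 := fun h0 => hk (by rw [h0, mul_zero])
        have h8 : d k i ≠ 0 := fun h0 => hk (by rw [sadj_apply, h0, sbar_zero, zero_mul])
        have h9 := ih k j h7
        have h10 : (deg k : ℤ) = deg i + 1 := hd.degree k i h8
        omega
      · rw [Matrix.mul_apply] at h5
        obtain ⟨k, _, hk⟩ := Finset.exists_ne_zero_of_sum_ne_zero h5
        have h7 : chi w H deg n d δ s i k ≠ 0 := fun h0 => hk (by rw [h0, zero_mul])
        have h8 : d k j ≠ 0 := fun h0 => hk (by rw [h0, mul_zero])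
        have h9 := ih i k h7
        have h10 : (deg k : ℤ) = deg j + 1 := hd.degree k j h8
        omega
    · have := hδ s i j h3
      omega

/-- Quadratic structures without block part whose duality map vanishes are boundaries. -/
theorem chi_spec {H : Matrix ι ι (MonoidAlgebra R G) → Matrix ι ι (MonoidAlgebra R G)}
    (hH : Halver w H) {β : Type} [DecidableEq β] (ρ : ι → β) (C : β → Subgroup G)
    (deg : ι → ℕ) (n : ℕ)
    (d : Matrix ι ι (MonoidAlgebra R G)) (δ : ℕ → Matrix ι ι (MonoidAlgebra R G))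
    (h : IsQuadratic w deg n d δ) (hd : InBlocks ρ C d) (hδ : ∀ s, tct ρ C (δ s) = 0)
    (h0 : δ 0 + tw w deg (δ 0) = 0) (s : ℕ) :
    δ s = qbd w deg n d (chi w H deg n d δ) s := by
  set χ := chi w H deg n d δ with hχ
  have hχs : ∀ s, χ (s + 1) = (-1 : ℤ) ^ (n + s) • H (δ s - bdy w deg d (χ s)) := fun s => rfl
  have off : ∀ s, tct ρ C (χ s) = 0 → ∀ i, ((δ s - bdy w deg d (χ s)) i i).coeff 1 = 0 := by
    classical
    intro s hs i
    have h1 : tct ρ C (δ s - bdy w deg d (χ s)) = 0 := by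
      rw [tct_sub, hδ, tct_bdy ρ C w deg d _ hd, hs, bdy_zero, sub_zero]
    have h2 : (tct ρ C (δ s - bdy w deg d (χ s)) i i).coeff 1 = 0 := by rw [h1]; rfl
    rw [coeff_tct, if_pos ⟨rfl, one_mem _⟩] at h2
    exact h2
  -- the two invariants
  have key : ∀ s, tct ρ C (χ s) = 0 ∧
      (δ s - bdy w deg d (χ s)) + (-1 : ℤ) ^ s • tw w deg (δ s - bdy w deg d (χ s)) = 0 := by
    intro s
    induction s with
    | zero =>
      refine ⟨tct_zero ρ C, ?_⟩
      have : χ 0 = 0 := rfl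
      rw [this, bdy_zero, sub_zero, pow_zero, one_smul]
      exact h0
    | succ s ih =>
      obtain ⟨i1, i2⟩ := ih
      set y := δ s - bdy w deg d (χ s) with hy
      have h1 : tct ρ C y = 0 := by
        rw [hy, tct_sub, hδ, tct_bdy ρ C w deg d _ hd, i1, bdy_zero, sub_zero]
      have h2 := hH.spec deg s y i2 (off s i1)
      have h3 : χ (s + 1) = (-1 : ℤ) ^ (n + s) • H y := hχs s
      refine ⟨by rw [h3, tct_zsmul, hH.tct ρ C y h1, smul_zero], ?_⟩
      -- the relation of `δ`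
      have h4 := h.rel s
      have h5 : δ (s + 1) + (-1 : ℤ) ^ (s + 1) • tw w deg (δ (s + 1))
          = (-1 : ℤ) ^ (n + s) • bdy w deg d (δ s) := by
        have h6 : (-1 : ℤ) ^ (n + s + 1) •
            (δ (s + 1) + (-1 : ℤ) ^ (s + 1) • tw w deg (δ (s + 1)))
            = -bdy w deg d (δ s) := eq_neg_of_add_eq_zero_right h4
        have h7 : (-1 : ℤ) ^ (n + s + 1) • ((-1 : ℤ) ^ (n + s + 1) •
            (δ (s + 1) + (-1 : ℤ) ^ (s + 1) • tw w deg (δ (s + 1))))
            = (-1 : ℤ) ^ (n + s + 1) • -bdy w deg d (δ s) := by rw [h6]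
        rw [smul_smul, neg_one_sq, one_smul] at h7
        rw [h7, pow_succ]
        simp
      have h8 : bdy w deg d y = bdy w deg d (δ s) := by
        rw [hy, bdy_sub, bdy_bdy w deg h.boundary, sub_zero]
      have h9 : bdy w deg d (χ (s + 1)) + (-1 : ℤ) ^ (s + 1) • tw w deg (bdy w deg d (χ (s + 1)))
          = (-1 : ℤ) ^ (n + s) • bdy w deg d y := by
        rw [tw_bdy w deg h.boundary, ← bdy_zsmul, ← bdy_add, h3, tw_zsmul]
        conv_rhs => rw [h2]
        rw [← bdy_zsmul, smul_add]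
        congr 2
        rw [smul_comm]
      rw [tw_sub, smul_sub]
      have h10 : ∀ a b c e : Matrix ι ι (MonoidAlgebra R G),
          a - b + (c - e) = (a + c) - (b + e) := fun a b c e => by abel
      rw [h10, h5, h9, h8, sub_self]
  have hs := key s
  have h2 := hH.spec deg s _ hs.2 (off s hs.1)
  rw [qbd, hχs]
  rw [tw_zsmul, smul_comm ((-1 : ℤ) ^ (s + 1)), ← smul_add, smul_smul, neg_one_sq, one_smul,
    ← h2]
  abel

end half

end TH6.CR
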