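import Pool.Agent.TH6.CR.Main

set_option autoImplicit false
set_option linter.style.haveILetI false
set_option linter.unusedSectionVars false
set_option linter.unusedVariables false

/-! Quadratic Poincaré complexes over `RG` with thin cones are sums of complexes over virtually
cyclic subgroups. -/

namespace TH6.CR

open Matrix TH57.Thr TH6.LF TH6.PF TH6.CX

variable {R : Type} [Ring R] [StarRing R] {G : Type} [Group G] {w : G →* ℤˣ}
  {ι : Type} [Fintype ι] [DecidableEq ι]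

theorem star_zs_ne (k : ℕ) (g : G) (r : R) (h : r ≠ 0) :
    (-1 : ℤ) ^ k • (((w g : ℤˣ) : ℤ) • star r) ≠ 0 := by
  rw [Ne, zs_ne, w_zsmul_eq_zero, star_eq_zero]
  exact h

theorem cone_swap {deg : ι → ℕ} {n : ℕ} {d : Matrix ι ι (MonoidAlgebra R G)}
    {ψ : ℕ → Matrix ι ι (MonoidAlgebra R G)} (h : IsQuadratic w deg n d ψ) (p q : ι ⊕ ι) (g : G)
    (hne : (cone w deg n d ψ p q).coeff g ≠ 0 ∨ (cone w deg n d ψ q p).coeff g⁻¹ ≠ 0) :
    (cone w deg n d ψ p.swap q.swap).coeff g ≠ 0 ∨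
      (cone w deg n d ψ q.swap p.swap).coeff g⁻¹ ≠ 0 := by
  have e1 : ∀ i j g, (cone w deg n d ψ (Sum.inl i) (Sum.inl j)).coeff g = (d i j).coeff g :=
    fun i j g => rfl
  have e2 : ∀ i j g, (cone w deg n d ψ (Sum.inl i) (Sum.inr j)).coeff g = 0 := fun i j g => rfl
  have e3 : ∀ i j g, (cone w deg n d ψ (Sum.inr i) (Sum.inl j)).coeff g
      = ((ψ 0 + tw w deg (ψ 0)) i j).coeff g := fun i j g => rfl
  have e4 : ∀ i j g, (d j i).coeff g⁻¹ ≠ 0 →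
      (cone w deg n d ψ (Sum.inr i) (Sum.inr j)).coeff g ≠ 0 := by
    intro i j g hh
    change ((-1 : ℤ) ^ (n + deg j) • sbar w (d j i)).coeff g ≠ 0
    rw [coeff_zs, coeff_sbar]
    exact star_zs_ne _ g _ hh
  have e4' : ∀ i j g, (cone w deg n d ψ (Sum.inr i) (Sum.inr j)).coeff g ≠ 0 →
      (d j i).coeff g⁻¹ ≠ 0 := by
    intro i j g hh h0
    apply hh
    change ((-1 : ℤ) ^ (n + deg j) • sbar w (d j i)).coeff g = 0
    rw [coeff_zs, coeff_sbar, h0, star_zero, smul_zero, smul_zero]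
  have e5 : ∀ i j g, ((ψ 0 + tw w deg (ψ 0)) j i).coeff g⁻¹ ≠ 0 →
      ((ψ 0 + tw w deg (ψ 0)) i j).coeff g ≠ 0 := by
    intro i j g hh
    rw [← phi_tw w deg (ψ 0)]
    rw [coeff_tw]
    exact star_zs_ne _ g _ hh
  rcases p with i | i <;> rcases q with j | j
  · rw [e1, e1] at hne
    rw [Sum.swap_inl, Sum.swap_inl]
    rcases hne with h1 | h1
    · right
      exact e4 j i g⁻¹ (by rwa [inv_inv])
    · left
      exact e4 i j g h1
  · rw [e2, e3] at hne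
    rw [Sum.swap_inl, Sum.swap_inr, e2, e3]
    rcases hne with h1 | h1
    · exact absurd rfl h1
    · exact Or.inl (e5 i j g h1)
  · rw [e2, e3] at hne
    rw [Sum.swap_inl, Sum.swap_inr, e2, e3]
    rcases hne with h1 | h1
    · exact Or.inr (e5 j i g⁻¹ (by rwa [inv_inv]))
    · exact absurd rfl h1
  · rw [Sum.swap_inr, Sum.swap_inr, e1, e1]
    rcases hne with h1 | h1
    · exact Or.inr (e4' i j g h1)
    · left
      have := e4' j i g⁻¹ h1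
      rwa [inv_inv] at this

/-- **Quadratic Poincaré complexes with thin cones.** -/
theorem q_main {H : Matrix ι ι (MonoidAlgebra R G) → Matrix ι ι (MonoidAlgebra R G)}
    (hH : Halver w H) {deg : ι → ℕ} {n : ℕ} {d : Matrix ι ι (MonoidAlgebra R G)}
    {ψ : ℕ → Matrix ι ι (MonoidAlgebra R G)} (h : IsQuadratic w deg n d ψ)
    (s₀ : Matrix (ι ⊕ ι) (ι ⊕ ι) (MonoidAlgebra R G))
    (hs₀ : IsCt (coneDeg deg n) (cone w deg n d ψ) s₀)
    (A : Matrix (ι ⊕ ι) (ι ⊕ ι) (MonoidAlgebra ℤ G))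
    (hsym : ∀ i j h, (A i j).coeff h ≠ 0 → (A j i).coeff h⁻¹ ≠ 0)
    (hswap : ∀ i j h, (A i j).coeff h ≠ 0 → (A i.swap j.swap).coeff h ≠ 0)
    (hsub : ∀ i j h, (cone w deg n d ψ i j).coeff h ≠ 0 → (A i j).coeff h ≠ 0)
    (c : ℝ) (hc0 : 0 < c) (hc : c ^ 2 < 9 / 2) (hthin : NormLE A c) :
    ∃ (ρ : ι → ι ⊕ ι) (u : ι → G) (C : ι ⊕ ι → Subgroup G)
      (ψ' χ : ℕ → Matrix ι ι (MonoidAlgebra R G))
      (s : Matrix (ι ⊕ ι) (ι ⊕ ι) (MonoidAlgebra R G)),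
      (∀ b, IsVC (C b)) ∧
      InBlocks ρ C (cu (dmU R u) d) ∧ (∀ k, InBlocks ρ C (ψ' k)) ∧
      IsQuadratic w deg n (cu (dmU R u) d) ψ' ∧
      IsCt (coneDeg deg n) (cone w deg n (cu (dmU R u) d) ψ') s ∧ InBlocks (Sum.elim ρ ρ) C s ∧
      (∀ k i j, χ k i j ≠ 0 → deg i + deg j + k = n + 1) ∧
      ∀ k, cq w (dmU R u) (ψ k) = ψ' k + qbd w deg n (cu (dmU R u) d) χ k := by
  classical
  set K := cone w deg n d ψ with hK
  obtain ⟨ρ₀, u₀, C, hC, hρ, hu, hst⟩ := sym_br_structure (Sum.swap : ι ⊕ ι → ι ⊕ ι)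
    Sum.swap_swap A hsym hswap c hc0 hc hthin
  let ρ : ι → ι ⊕ ι := fun i => ρ₀ (Sum.inl i)
  let u : ι → G := fun i => u₀ (Sum.inl i)
  have hρr : ∀ i, ρ₀ (Sum.inr i) = ρ i := fun i => hρ (Sum.inl i)
  have hur : ∀ i, u₀ (Sum.inr i) = u i := fun i => hu (Sum.inl i)
  have hKc : ∀ p q g, (K p q).coeff g ≠ 0 → ρ₀ p = ρ₀ q ∧ u₀ p * g * (u₀ q)⁻¹ ∈ C (ρ₀ p) :=
    fun p q g hne => hst p q g (hsub p q g hne)
  set Φ := ψ 0 + tw w deg (ψ 0) with hΦ
  have hgrp : ∀ (a b g : G), a * (a⁻¹ * g * b) * b⁻¹ = g := fun a b g => by group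
  have cd : ∀ (M : Matrix ι ι (MonoidAlgebra R G)) (i j : ι) (g : G),
      (cu (dmU R u) M i j).coeff g = (M i j).coeff ((u i)⁻¹ * g * u j) :=
    fun M i j g => coeff_dmU u u M i j g
  have hdB : InBlocks ρ C (cu (dmU R u) d) := by
    intro i j g hne
    rw [cd] at hne
    have h1 := hKc (Sum.inl i) (Sum.inl j) _ hne
    exact ⟨h1.1, by have := h1.2; rwa [hgrp] at this⟩
  have hΦB : InBlocks ρ C (cq w (dmU R u) Φ) := by
    intro i j g hne
    rw [coeff_cq] at hne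
    have hne' : (Φ i j).coeff ((u i)⁻¹ * g * u j) ≠ 0 := fun h0 => hne (by rw [h0, smul_zero])
    have h1 := hKc (Sum.inr i) (Sum.inl j) _ hne'
    rw [hρr, hur] at h1
    exact ⟨h1.1, by have := h1.2; rwa [hgrp] at this⟩
  have hQ1 := quadratic_cq u h
  have hQ2 := quadratic_tct ρ C hQ1 hdB
  have hQ3 := quadratic_sub hQ1 hQ2
  set ψ' : ℕ → Matrix ι ι (MonoidAlgebra R G) :=
    fun k => tct ρ C (cq w (dmU R u) (ψ k)) with hψ'
  set δ : ℕ → Matrix ι ι (MonoidAlgebra R G) := fun k => cq w (dmU R u) (ψ k) - ψ' k with hδ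
  have hΦ' : ψ' 0 + tw w deg (ψ' 0) = cq w (dmU R u) Φ := by
    rw [← tct_of_inBlocks ρ C _ hΦB, hΦ, cq_add, tct_add, ← tw_cq, tct_tw]
  have hδ0 : δ 0 + tw w deg (δ 0) = 0 := by
    change (cq w (dmU R u) (ψ 0) - ψ' 0) + tw w deg (cq w (dmU R u) (ψ 0) - ψ' 0) = 0
    rw [tw_sub, tw_cq]
    have : cq w (dmU R u) (ψ 0) - ψ' 0 + (cq w (dmU R u) (tw w deg (ψ 0)) - tw w deg (ψ' 0))
        = cq w (dmU R u) (ψ 0 + tw w deg (ψ 0)) - (ψ' 0 + tw w deg (ψ' 0)) := by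
      rw [cq_add]; abel
    rw [this, hΦ', hΦ, sub_self]
  have hδt : ∀ k, tct ρ C (δ k) = 0 := by
    intro k
    change tct ρ C (cq w (dmU R u) (ψ k) - tct ρ C (cq w (dmU R u) (ψ k))) = 0
    rw [tct_sub, tct_tct, sub_self]
  have hχ := chi_spec hH ρ C deg n (cu (dmU R u) d) δ hQ3 hdB hδt hδ0
  -- the cone
  let U : ι ⊕ ι → G := Sum.elim u u
  let E : ι ⊕ ι → ℤˣ := Sum.elim 1 (fun i => w (u i))
  have hcone : cone w deg n (cu (dmU R u) d) ψ' = cu (dsu E U) K := by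
    ext p q g
    rw [coeff_cu]
    rcases p with i | i <;> rcases q with j | j
    · change (cu (dmU R u) d i j).coeff g
        = (((1 : ℤˣ) : ℤ) * ((1 : ℤˣ) : ℤ)) • (d i j).coeff ((u i)⁻¹ * g * u j)
      rw [cd]
      simp
    · change (0 : R) = _ • (0 : R)
      rw [smul_zero]
    · change ((ψ' 0 + tw w deg (ψ' 0)) i j).coeff g
        = (((w (u i) : ℤˣ) : ℤ) * ((1 : ℤˣ) : ℤ)) • (Φ i j).coeff ((u i)⁻¹ * g * u j)
      rw [hΦ', coeff_cq]
      simp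
    · change ((-1 : ℤ) ^ (n + deg j) • sbar w (cu (dmU R u) d j i)).coeff g
        = (((w (u i) : ℤˣ) : ℤ) * ((w (u j) : ℤˣ) : ℤ)) •
          ((-1 : ℤ) ^ (n + deg j) • sbar w (d j i)).coeff ((u i)⁻¹ * g * u j)
      rw [coeff_zs, coeff_zs, coeff_sbar, coeff_sbar, cd]
      have e1 : (u j)⁻¹ * g⁻¹ * u i = ((u i)⁻¹ * g * u j)⁻¹ := by group
      have e2 : ((w ((u i)⁻¹ * g * u j) : ℤˣ) : ℤ)
          = ((w (u i) : ℤˣ) : ℤ) * ((w g : ℤˣ) : ℤ) * ((w (u j) : ℤˣ) : ℤ) := by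
        rw [map_mul, map_mul, Units.val_mul, Units.val_mul, w_inv]
      rw [e1, e2]
      simp only [smul_smul]
      congr 1
      have h1 := w_sq w (u i)
      have h2 := w_sq w (u j)
      linear_combination (-((-1 : ℤ) ^ (n + deg j) * ((w g : ℤˣ) : ℤ) * ((w (u j) : ℤˣ) : ℤ)
        * ((w (u j) : ℤˣ) : ℤ))) * h1 - ((-1 : ℤ) ^ (n + deg j) * ((w g : ℤˣ) : ℤ)) * h2
  have hKB : InBlocks (Sum.elim ρ ρ) C (cu (dsu E U) K) := by
    intro p q g hne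
    rw [coeff_cu] at hne
    have hne' : (K p q).coeff ((U p)⁻¹ * g * U q) ≠ 0 := fun h0 => hne (by rw [h0, smul_zero])
    have h1 := hKc p q _ hne'
    rcases p with i | i <;> rcases q with j | j
    · exact ⟨h1.1, by have := h1.2; rwa [show U (Sum.inl i) = u₀ (Sum.inl i) from rfl,
        show U (Sum.inl j) = u₀ (Sum.inl j) from rfl, hgrp] at this⟩
    · exact absurd rfl hne'
    · rw [hρr, hur] at h1
      exact ⟨h1.1, by have := h1.2; rwa [show U (Sum.inr i) = u i from rfl,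
        show U (Sum.inl j) = u₀ (Sum.inl j) from rfl, hgrp] at this⟩
    · rw [hρr, hρr, hur, hur] at h1
      exact ⟨h1.1, by have := h1.2; rwa [show U (Sum.inr i) = u i from rfl,
        show U (Sum.inr j) = u j from rfl, hgrp] at this⟩
  have hct := ct_cu E U hs₀
  have hct2 := tct_ct (coneDeg deg n) (Sum.elim ρ ρ) C (cu (dsu E U) K) (cu (dsu E U) s₀) hct hKB
  refine ⟨ρ, u, C, ψ', chi w H deg n (cu (dmU R u) d) δ,
    tct (Sum.elim ρ ρ) C (cu (dsu E U) s₀), hC, hdB,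
    fun k => tct_inBlocks ρ C _, hQ2, ?_, tct_inBlocks _ _ _,
    fun k => chi_degree hH deg n (cu (dmU R u) d) hQ3.boundary δ hQ3.degree k, ?_⟩
  · rw [hcone]
    exact hct2
  · intro k
    rw [← hχ k]
    change cq w (dmU R u) (ψ k) = ψ' k + (cq w (dmU R u) (ψ k) - ψ' k)
    abel

/-- The version for the symmetrised support pattern of the cone. -/
theorem q_pat {H : Matrix ι ι (MonoidAlgebra R G) → Matrix ι ι (MonoidAlgebra R G)}
    (hH : Halver w H) {deg : ι → ℕ} {n : ℕ} {d : Matrix ι ι (MonoidAlgebra R G)}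
    {ψ : ℕ → Matrix ι ι (MonoidAlgebra R G)} (h : IsQuadratic w deg n d ψ)
    (s₀ : Matrix (ι ⊕ ι) (ι ⊕ ι) (MonoidAlgebra R G))
    (hs₀ : IsCt (coneDeg deg n) (cone w deg n d ψ) s₀)
    (c : ℝ) (hc0 : 0 < c) (hc : c ^ 2 < 9 / 2) (hthin : NormLE (symPat (cone w deg n d ψ)) c) :
    ∃ (ρ : ι → ι ⊕ ι) (u : ι → G) (C : ι ⊕ ι → Subgroup G)
      (ψ' χ : ℕ → Matrix ι ι (MonoidAlgebra R G))
      (s : Matrix (ι ⊕ ι) (ι ⊕ ι) (MonoidAlgebra R G)),
      (∀ b, IsVC (C b)) ∧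
      InBlocks ρ C (cu (dmU R u) d) ∧ (∀ k, InBlocks ρ C (ψ' k)) ∧
      IsQuadratic w deg n (cu (dmU R u) d) ψ' ∧
      IsCt (coneDeg deg n) (cone w deg n (cu (dmU R u) d) ψ') s ∧ InBlocks (Sum.elim ρ ρ) C s ∧
      (∀ k i j, χ k i j ≠ 0 → deg i + deg j + k = n + 1) ∧
      ∀ k, cq w (dmU R u) (ψ k) = ψ' k + qbd w deg n (cu (dmU R u) d) χ k := by
  have key : ∀ (M : Matrix (ι ⊕ ι) (ι ⊕ ι) (MonoidAlgebra R G)) (p q : ι ⊕ ι) (g : G),
      (symPat M p q).coeff g ≠ 0 ↔ ((M p q).coeff g ≠ 0 ∨ (M q p).coeff g⁻¹ ≠ 0) := by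
    intro M p q g
    rw [coeff_symPat]
    by_cases h1 : (M p q).coeff g = 0
    · rw [h1, ind_zero, zero_add, ind_ne]
      simp
    · rw [ind_of_ne h1]
      constructor
      · intro _; exact Or.inl h1
      · intro _
        by_cases h2 : (M q p).coeff g⁻¹ = 0
        · rw [h2, ind_zero]; norm_num
        · rw [ind_of_ne h2]; norm_num
  apply q_main hH h s₀ hs₀ (symPat (cone w deg n d ψ)) ?_ ?_ ?_ c hc0 hc hthin
  · intro i j g hne
    rw [key] at hne ⊢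
    rw [inv_inv]
    exact hne.symm
  · intro i j g hne
    rw [key] at hne ⊢
    exact cone_swap h i j g hne
  · intro i j g hne
    rw [key]
    exact Or.inl hne

end TH6.CR
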