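import Pool.Agent.TH6.CX.QMain
import Pool.Agent.TH6.PF.LBelow

set_option autoImplicit false
set_option linter.style.haveILetI false
set_option linter.unusedSectionVars false
set_option linter.unusedVariables false

/-! Quadratic structures on complexes of based free modules over the group ring of a ring with
involution, with an orientation character. -/

namespace TH6.CR

open Matrix TH57.Thr TH6.LF TH6.PF TH6.CX

variable {R : Type} [Ring R] [StarRing R] {G : Type} [Group G] (w : G →* ℤˣ)
  {ι : Type} [Fintype ι] [DecidableEq ι]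

/-- The involution `T` of `C ⊗ C`: an element of `(C ⊗ C)` is a matrix `M`, seen as a map from the
dual of `C` to `C`, and `T` is the duality involution with the sign `(-1) ^ (p q)` on
`C_p ⊗ C_q`. -/
noncomputable def tw (deg : ι → ℕ) (M : Matrix ι ι (MonoidAlgebra R G)) :
    Matrix ι ι (MonoidAlgebra R G) :=
  fun i j => (-1 : ℤ) ^ (deg i * deg j) • sbar w (M j i)

/-- The boundary of `C ⊗ C`, for the complex `C` with boundary operator `d`: the map
`M ↦ M d ± d* M`, with the sign `(-1) ^ r` on the component with values in `C_r`. -/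
noncomputable def bdy (deg : ι → ℕ) (d M : Matrix ι ι (MonoidAlgebra R G)) :
    Matrix ι ι (MonoidAlgebra R G) :=
  fun i j => (M * d) i j + (-1 : ℤ) ^ deg j • (sadj w d * M) i j

/-- An `n`-dimensional quadratic structure `ψ` on the complex of based free `RG`-modules with
boundary operator `d` (Ranicki): `ψ s` has total degree `n - s` and
`∂ ψ_s + (-1)^(n-s-1) (ψ_(s+1) + (-1)^(s+1) T ψ_(s+1)) = 0`. -/
structure IsQuadratic (deg : ι → ℕ) (n : ℕ) (d : Matrix ι ι (MonoidAlgebra R G))
    (ψ : ℕ → Matrix ι ι (MonoidAlgebra R G)) : Prop where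
  boundary : IsBd (fun i => (deg i : ℤ)) d
  degree : ∀ s i j, ψ s i j ≠ 0 → deg i + deg j + s = n
  rel : ∀ s, bdy w deg d (ψ s)
    + (-1 : ℤ) ^ (n + s + 1) • (ψ (s + 1) + (-1 : ℤ) ^ (s + 1) • tw w deg (ψ (s + 1))) = 0

/-- The boundary of the sequence `χ` of elements `χ s` of `C ⊗ C` of total degree `n + 1 - s`. -/
noncomputable def qbd (deg : ι → ℕ) (n : ℕ) (d : Matrix ι ι (MonoidAlgebra R G))
    (χ : ℕ → Matrix ι ι (MonoidAlgebra R G)) (s : ℕ) : Matrix ι ι (MonoidAlgebra R G) :=
  bdy w deg d (χ s)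
    + (-1 : ℤ) ^ (n + s) • (χ (s + 1) + (-1 : ℤ) ^ (s + 1) • tw w deg (χ (s + 1)))

/-- The boundary operator of the mapping cone of the duality map `(1 + T) ψ_0` from the dual
complex `C^(n-*)` to `C`. The degrees of its basis elements are `coneDeg deg n`. -/
noncomputable def cone (deg : ι → ℕ) (n : ℕ) (d : Matrix ι ι (MonoidAlgebra R G))
    (ψ : ℕ → Matrix ι ι (MonoidAlgebra R G)) : Matrix (ι ⊕ ι) (ι ⊕ ι) (MonoidAlgebra R G) :=
  fromBlocks d 0 (ψ 0 + tw w deg (ψ 0)) (fun i j => (-1 : ℤ) ^ (n + deg j) • sadj w d i j)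

/-- The entries of `M` vanish outside the diagonal blocks given by the labels `ρ`, and in the
block with label `a` they lie in the group ring of `C a`: `M` is the block sum of matrices over the
group rings of the subgroups `C a`. -/
def InBlocks {α β : Type} (ρ : α → β) (C : β → Subgroup G)
    (M : Matrix α α (MonoidAlgebra R G)) : Prop :=
  ∀ i j g, (M i j).coeff g ≠ 0 → ρ i = ρ j ∧ g ∈ C (ρ i)

section algebra

variable (deg : ι → ℕ)

theorem tw_add (M N : Matrix ι ι (MonoidAlgebra R G)) :
    tw w deg (M + N) = tw w deg M + tw w deg N := by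
  ext1 i j
  simp only [tw, Matrix.add_apply, sbar_add, smul_add]

theorem tw_zsmul (z : ℤ) (M : Matrix ι ι (MonoidAlgebra R G)) :
    tw w deg (z • M) = z • tw w deg M := by
  ext1 i j
  simp only [tw, Matrix.smul_apply, sbar_zsmul]
  rw [smul_comm]

theorem tw_neg (M : Matrix ι ι (MonoidAlgebra R G)) : tw w deg (-M) = -tw w deg M := by
  have := tw_zsmul w deg (-1) M
  simpa using this

theorem tw_sub (M N : Matrix ι ι (MonoidAlgebra R G)) :
    tw w deg (M - N) = tw w deg M - tw w deg N := by
  rw [sub_eq_add_neg, tw_add, tw_neg, ← sub_eq_add_neg]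

theorem tw_tw (M : Matrix ι ι (MonoidAlgebra R G)) : tw w deg (tw w deg M) = M := by
  ext1 i j
  simp only [tw]
  rw [sbar_zsmul, sbar_sbar, smul_smul, mul_comm (deg j), neg_one_sq, one_smul]

variable (d : Matrix ι ι (MonoidAlgebra R G))

theorem bdy_add (M N : Matrix ι ι (MonoidAlgebra R G)) :
    bdy w deg d (M + N) = bdy w deg d M + bdy w deg d N := by
  ext1 i j
  simp only [bdy, Matrix.add_mul, Matrix.mul_add, Matrix.add_apply, smul_add]
  abel

theorem bdy_zsmul (z : ℤ) (M : Matrix ι ι (MonoidAlgebra R G)) :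
    bdy w deg d (z • M) = z • bdy w deg d M := by
  ext1 i j
  simp only [bdy, Matrix.smul_mul, Matrix.mul_smul, Matrix.smul_apply, smul_add]
  rw [smul_comm]

theorem bdy_neg (M : Matrix ι ι (MonoidAlgebra R G)) : bdy w deg d (-M) = -bdy w deg d M := by
  have := bdy_zsmul w deg d (-1) M
  simpa using this

theorem bdy_sub (M N : Matrix ι ι (MonoidAlgebra R G)) :
    bdy w deg d (M - N) = bdy w deg d M - bdy w deg d N := by
  rw [sub_eq_add_neg, bdy_add, bdy_neg, ← sub_eq_add_neg]

theorem bdy_zero : bdy w deg d 0 = 0 := by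
  have := bdy_zsmul w deg d 0 0
  simpa using this

variable {d} (hd : IsBd (fun i => (deg i : ℤ)) d)

include hd in
theorem bdy_bdy (M : Matrix ι ι (MonoidAlgebra R G)) : bdy w deg d (bdy w deg d M) = 0 := by
  have hdd : sadj w d * sadj w d = 0 := by rw [← sadj_mul, hd.sq, sadj_zero]
  let S : Matrix ι ι (MonoidAlgebra R G) := fun i j => (-1 : ℤ) ^ deg j • (sadj w d * M) i j
  have hS : bdy w deg d M = M * d + S := rfl
  have e1 : (S * d) = fun i j => -((-1 : ℤ) ^ deg j • (sadj w d * M * d) i j) := by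
    ext1 i j
    rw [Matrix.mul_apply, Matrix.mul_apply, Finset.smul_sum, ← Finset.sum_neg_distrib]
    refine Finset.sum_congr rfl fun k _ => ?_
    change ((-1 : ℤ) ^ deg k • (sadj w d * M) i k) * d k j = _
    by_cases h : d k j = 0
    · rw [h, mul_zero, mul_zero, smul_zero, neg_zero]
    · have h1 := hd.degree k j h
      have h2 : deg k = deg j + 1 := by
        have h1' : (deg k : ℤ) = deg j + 1 := h1
        omega
      rw [h2, pow_succ, smul_mul_assoc]
      simp
  have e2 : (sadj w d * S) = 0 := by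
    ext1 i j
    rw [Matrix.mul_apply]
    have : ∑ k, sadj w d i k * S k j
        = (-1 : ℤ) ^ deg j • ∑ k, sadj w d i k * (sadj w d * M) k j := by
      rw [Finset.smul_sum]
      exact Finset.sum_congr rfl fun k _ => mul_smul_comm _ _ _
    rw [this, ← Matrix.mul_apply, ← Matrix.mul_assoc, hdd, Matrix.zero_mul]
    simp
  ext1 i j
  change (bdy w deg d M * d) i j + (-1 : ℤ) ^ deg j • (sadj w d * bdy w deg d M) i j = 0
  rw [hS, Matrix.add_mul, Matrix.mul_add, e2, Matrix.mul_assoc M, hd.sq, Matrix.mul_zero,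
    add_zero, ← Matrix.mul_assoc]
  have e3 : (0 + S * d) i j = -((-1 : ℤ) ^ deg j • (sadj w d * M * d) i j) := by
    rw [zero_add, e1]
  rw [e3, neg_add_cancel]

include hd in
theorem tw_bdy (M : Matrix ι ι (MonoidAlgebra R G)) :
    tw w deg (bdy w deg d M) = bdy w deg d (tw w deg M) := by
  ext1 i j
  change (-1 : ℤ) ^ (deg i * deg j) • sbar w ((M * d) j i + (-1 : ℤ) ^ deg i •
      (sadj w d * M) j i)
    = (tw w deg M * d) i j + (-1 : ℤ) ^ deg j • (sadj w d * tw w deg M) i j
  rw [sbar_add, sbar_zsmul, Matrix.mul_apply, Matrix.mul_apply, Matrix.mul_apply,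
    Matrix.mul_apply, sbar_sum, sbar_sum, smul_add, smul_smul, add_comm]
  congr 1
  · rw [Finset.smul_sum]
    refine Finset.sum_congr rfl fun k _ => ?_
    rw [sbar_mul, sadj_apply, sbar_sbar]
    change _ = ((-1 : ℤ) ^ (deg i * deg k) • sbar w (M k i)) * d k j
    by_cases h : d k j = 0
    · rw [h, mul_zero, mul_zero, smul_zero]
    · have h1 : (deg k : ℤ) = deg j + 1 := hd.degree k j h
      have h2 : deg k = deg j + 1 := by omega
      rw [smul_mul_assoc, h2, ← pow_add, Nat.mul_add, Nat.mul_one]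
  · rw [Finset.smul_sum, Finset.smul_sum]
    refine Finset.sum_congr rfl fun k _ => ?_
    rw [sbar_mul, sadj_apply]
    change _ = (-1 : ℤ) ^ deg j •
      (sbar w (d k i) * ((-1 : ℤ) ^ (deg k * deg j) • sbar w (M j k)))
    by_cases h : d k i = 0
    · rw [h, sbar_zero, zero_mul, zero_mul, smul_zero, smul_zero]
    · have h1 : (deg k : ℤ) = deg i + 1 := hd.degree k i h
      have h2 : deg k = deg i + 1 := by omega
      rw [mul_smul_comm, smul_smul, h2, ← pow_add]
      congr 1
      have h3 : deg j + (deg i + 1) * deg j = deg i * deg j + 2 * deg j := by ring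
      rw [h3, pow_add, pow_mul, pow_mul]
      simp

theorem phi_tw (ψ : Matrix ι ι (MonoidAlgebra R G)) :
    tw w deg (ψ + tw w deg ψ) = ψ + tw w deg ψ := by
  rw [tw_add, tw_tw, add_comm]

variable {deg w}

theorem bdy_phi {n : ℕ} {ψ : ℕ → Matrix ι ι (MonoidAlgebra R G)} (h : IsQuadratic w deg n d ψ) :
    bdy w deg d (ψ 0 + tw w deg (ψ 0)) = 0 := by
  have h0 := h.rel 0
  simp only [zero_add, pow_one, add_zero] at h0
  have h1 : bdy w deg d (ψ 0) = -((-1 : ℤ) ^ (n + 1) • (ψ 1 + (-1 : ℤ) • tw w deg (ψ 1))) :=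
    eq_neg_of_add_eq_zero_left h0
  rw [bdy_add, ← tw_bdy w deg h.boundary, h1, tw_neg, tw_zsmul, tw_add, tw_zsmul, tw_tw]
  rw [← neg_add, ← smul_add]
  have : ψ 1 + (-1 : ℤ) • tw w deg (ψ 1) + (tw w deg (ψ 1) + (-1 : ℤ) • ψ 1) = 0 := by
    rw [neg_one_smul, neg_one_smul]; abel
  rw [this, smul_zero, neg_zero]

theorem phi_degree {n : ℕ} {ψ : ℕ → Matrix ι ι (MonoidAlgebra R G)}
    (h : IsQuadratic w deg n d ψ)
    (i j : ι) (hne : (ψ 0 + tw w deg (ψ 0)) i j ≠ 0) : deg i + deg j = n := by
  rw [Matrix.add_apply] at hne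
  by_cases h1 : ψ 0 i j = 0
  · have h2 : ψ 0 j i ≠ 0 := by
      intro h2
      apply hne
      rw [h1, zero_add]
      simp only [tw]
      rw [h2, sbar_zero, smul_zero]
    have := h.degree 0 j i h2
    omega
  · have := h.degree 0 i j h1
    omega

/-- the cone is a complex -/
theorem cone_boundary {n : ℕ} {ψ : ℕ → Matrix ι ι (MonoidAlgebra R G)}
    (h : IsQuadratic w deg n d ψ) : IsBd (coneDeg deg n) (cone w deg n d ψ) := by
  set Φ := ψ 0 + tw w deg (ψ 0) with hΦ
  let d' : Matrix ι ι (MonoidAlgebra R G) := fun i j => (-1 : ℤ) ^ (n + deg j) • sadj w d i j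
  have hc : cone w deg n d ψ = fromBlocks d 0 Φ d' := rfl
  constructor
  · rintro (i | i) (j | j) hne
    · exact h.boundary.degree i j hne
    · exact absurd rfl hne
    · have := phi_degree h i j hne
      change (n : ℤ) + 1 - deg i = deg j + 1
      omega
    · have h1 : d j i ≠ 0 := by
        intro h0
        apply hne
        change (-1 : ℤ) ^ (n + deg j) • sbar w (d j i) = 0
        rw [h0, sbar_zero, smul_zero]
      have h2 : (deg j : ℤ) = deg i + 1 := h.boundary.degree j i h1
      change (n : ℤ) + 1 - deg i = n + 1 - deg j + 1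
      omega
  · have e1 : Φ * d + d' * Φ = 0 := by
      rw [← bdy_phi h]
      ext1 i j
      rw [Matrix.add_apply]
      change (Φ * d) i j + _ = (Φ * d) i j + (-1 : ℤ) ^ deg j • (sadj w d * Φ) i j
      congr 1
      rw [Matrix.mul_apply, Matrix.mul_apply, Finset.smul_sum]
      refine Finset.sum_congr rfl fun k _ => ?_
      change ((-1 : ℤ) ^ (n + deg k) • sadj w d i k) * Φ k j = _
      by_cases h0 : Φ k j = 0
      · rw [h0, mul_zero, mul_zero, smul_zero]
      · have h1 := phi_degree h k j h0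
        rw [smul_mul_assoc, ← h1]
        congr 1
        have h3 : deg k + deg j + deg k = 2 * deg k + deg j := by ring
        rw [h3, pow_add, pow_mul]
        simp
    have e2 : d' * d' = 0 := by
      have hdd : sadj w d * sadj w d = 0 := by rw [← sadj_mul, h.boundary.sq, sadj_zero]
      ext1 i j
      rw [Matrix.mul_apply]
      have : ∑ k, d' i k * d' k j = -∑ k, sadj w d i k * sadj w d k j := by
        rw [← Finset.sum_neg_distrib]
        refine Finset.sum_congr rfl fun k _ => ?_
        change ((-1 : ℤ) ^ (n + deg k) • sadj w d i k) * ((-1 : ℤ) ^ (n + deg j) • sadj w d k j)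
          = _
        by_cases h0 : d j k = 0
        · rw [sadj_apply w d j k, h0, sbar_zero, smul_zero, mul_zero, mul_zero, neg_zero]
        · have h1 : (deg j : ℤ) = deg k + 1 := h.boundary.degree j k h0
          have h2 : deg j = deg k + 1 := by omega
          rw [smul_mul_assoc, mul_smul_comm, smul_smul, h2, ← pow_add]
          have h3 : n + deg k + (n + (deg k + 1)) = 2 * (n + deg k) + 1 := by ring
          rw [h3, pow_succ, pow_mul]
          simp
      rw [this, ← Matrix.mul_apply, hdd]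
      simp
    rw [hc, Matrix.fromBlocks_multiply]
    rw [h.boundary.sq, e1, e2]
    simp

end algebra

end TH6.CR
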